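import Pool.Agent.N251.LF.Win
import Pool.Agent.N251.LF.Fields
import Pool.Agent.Results.MP_be1fae_nt.WindowsWithoutSolutions

/-!
# No solutions of the generalised Fermat equation near the values of generic linear forms

A solution `a x ^ p + b y ^ q = c z ^ r` with coefficients composed of primes of `S` is called reduced if no prime of `S`
divides `x y z` and `|x|`, `|y|`, `|z|` are `1` or no perfect powers; every solution becomes reduced if the primes of `S`
in the bases are moved to the coefficients and perfect powers to the exponents (which become larger).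

Let `v_i`, `i` in a countable set, be vectors in `ℝ ^ k`, `O(X ^ (τ + ε))` of them of norm at most `X` for every `ε > 0`: for
instance `(1, n, …, n ^ d)` with `τ = 1 / d`, or `(b_1 ^ (n_1), …, b_k ^ (n_k))`, `b_j > 1`, for all `n_1, …, n_k`, with
`τ = 0`, or `(n_1 ^ (a_1), …, n_k ^ (a_k))` with `τ = ∑ 1 / a_j`. Let `θ < 1`. For all `α` in `ℝ ^ k` outside a set of
Hausdorff dimension at most `k - 1 + (1 / 3 + τ) / (1 - θ)` there is `R` such that for all `c` and all but finitely many `i`
there is NO reduced solution with two exponents `≥ R` and `||x y z| - α · v_i| ≤ c ‖v_i‖ ^ θ`. If `2 ∉ S`, then for all `α`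
outside a set of dimension at most `k - 1 + τ / (1 - θ)` there is `R` such that for all `c` and all but finitely many `i`
there is NO reduced solution with two exponents `≥ R` and `|max (|x|, |y|, |z|) - α · v_i| ≤ c ‖v_i‖ ^ θ`. The bounds are
less than `k` if `1 / 3 + τ + θ < 1`, respectively `τ + θ < 1`, so that the statements hold for almost all `α`.

For example, for almost all polynomials `P` of degree `d ≥ 2` and `θ < d - 1`, `2 ∉ S`, for some `R` there are only finitely
many `n` with a reduced solution with two exponents `≥ R` whose largest base is within `n ^ θ` of `P(n)`; and for almost all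
`(α_1, …, α_k)` and `θ < 1` only finitely many `(n_1, …, n_k)` with a reduced solution with two exponents `≥ R` whose largest
base is within `(max_j b_j ^ (n_j)) ^ θ` of `α_1 b_1 ^ (n_1) + … + α_k b_k ^ (n_k)`. For `k = 1` see
`WindowsWithoutSolutions`.

Proof. The number of the solutions is bounded by the starting theorem `AllSolutionsByBases` of this problem. For each `i`
the `α` with a solution near `α · v_i` are in few neighbourhoods of parallel affine hyperplanes, which are covered by small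
cubes (tool of helper251, `Pool.Agent.N251.LF`).
-/

set_option autoImplicit false

open Finset Filter Topology MeasureTheory
open scoped ENNReal

namespace Pool.Agent.Results.MP_be1fae_nt.LinearForms

open Pool.Agent.N251.LF (Fam Sq linear_win_nat null_of_dim)
open AllSolutionsByBases (Solution TwoLarge ByBases ByProduct Bases)
open WindowsWithoutSolutions (Reduced Val card_val)

lemma inter_dim' {k : ℕ} {s τ θ : ℝ} (G : ℕ → Set (Fin k → ℝ))
    (hG : ∀ m : ℕ, dimH (G m) ≤ ENNReal.ofReal ((k : ℝ) - 1 + (s + 1 / ((m : ℝ) + 1) + τ) / (1 - θ))) :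
    dimH (⋂ m, G m) ≤ ENNReal.ofReal ((k : ℝ) - 1 + (s + τ) / (1 - θ)) := by
  have hlim : Tendsto (fun m : ℕ => ENNReal.ofReal ((k : ℝ) - 1 + (s + 1 / ((m : ℝ) + 1) + τ) / (1 - θ))) atTop
      (𝓝 (ENNReal.ofReal ((k : ℝ) - 1 + (s + 0 + τ) / (1 - θ)))) :=
    ENNReal.tendsto_ofReal ((((tendsto_one_div_add_atTop_nhds_zero_nat.const_add s).add_const τ).div_const
      (1 - θ)).const_add ((k : ℝ) - 1))
  rw [add_zero] at hlim
  exact ge_of_tendsto' hlim fun m => (dimH_mono (Set.iInter_subset _ m)).trans (hG m)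

/-- **No solutions near the values of generic linear forms.** Let `S` be a finite set, let the vectors `v_i` in `ℝ ^ k` have
exponent at most `τ ≥ 0` (`Fam v τ`: at most `C X ^ (τ + ε)` of them have norm at most `X`) and `θ < 1`. (1) There is a set `E`
of Hausdorff dimension at most `k - 1 + (1 / 3 + τ) / (1 - θ)` such that for each `α` outside `E` there is `R` such that for
all `c`, for all but finitely many `i` there is no reduced `S`-solution `a x ^ p + b y ^ q = c' z ^ r` with at least two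
exponents `≥ R` and `||x y z| - ∑ α_j v_(i,j)| ≤ c ‖v_i‖ ^ θ`. (2) If `2 ∉ S`, there is a set `E` of dimension at most
`k - 1 + τ / (1 - θ)` such that for each `α` outside `E` there is `R` such that for all `c`, for all but finitely many `i`
there is no reduced `S`-solution with at least two exponents `≥ R` and
`|max (|x|, |y|, |z|) - ∑ α_j v_(i,j)| ≤ c ‖v_i‖ ^ θ`. (3) Sets of dimension `< k` are null sets. (4) The vectors
`(1, n, …, n ^ d)` have exponent `1 / d`, the vectors `(b_1 ^ (n_1), …, b_k ^ (n_k))` exponent `0`, the vectors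
`(n_1 ^ (a_1), …, n_k ^ (a_k))` exponent `∑ 1 / a_j`, and more generally products of sequences have the sum of the
exponents. -/
theorem result :
    (∀ (S : Finset ℕ) (k : ℕ) (ι : Type) (v : ι → Fin k → ℝ) (τ θ : ℝ), Fam v τ → 0 ≤ τ → θ < 1 →
      (∃ E : Set (Fin k → ℝ), dimH E ≤ ENNReal.ofReal ((k : ℝ) - 1 + (1 / 3 + τ) / (1 - θ)) ∧
        ∀ α, α ∉ E → ∃ R : ℕ, ∀ c : ℝ, {i | ∃ (a b c' x y z : ℤ) (p q r : ℕ), Reduced S R a b c' x y z p q r ∧
          |(((x * y * z).natAbs : ℕ) : ℝ) - ∑ j, α j * v i j| ≤ c * ‖v i‖ ^ θ}.Finite) ∧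
      (2 ∉ S → ∃ E : Set (Fin k → ℝ), dimH E ≤ ENNReal.ofReal ((k : ℝ) - 1 + τ / (1 - θ)) ∧
        ∀ α, α ∉ E → ∃ R : ℕ, ∀ c : ℝ, {i | ∃ (a b c' x y z : ℤ) (p q r : ℕ), Reduced S R a b c' x y z p q r ∧
          |((max (max x.natAbs y.natAbs) z.natAbs : ℕ) : ℝ) - ∑ j, α j * v i j| ≤ c * ‖v i‖ ^ θ}.Finite)) ∧
    (∀ (k : ℕ) (E : Set (Fin k → ℝ)) (s : ℝ), 1 ≤ k → dimH E ≤ ENNReal.ofReal s → s < k → volume E = 0) ∧
    (∀ d : ℕ, 1 ≤ d → Fam (fun (n : ℕ) (j : Fin (d + 1)) => (n : ℝ) ^ (j : ℕ)) (1 / d)) ∧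
    (∀ (k : ℕ) (b : Fin k → ℝ), (∀ j, 1 < b j) → Fam (fun (n : Fin k → ℕ) (j : Fin k) => b j ^ n j) 0) ∧
    (∀ (k : ℕ) (a : Fin k → ℝ), (∀ j, 0 < a j) →
      Fam (fun (n : Fin k → ℕ) (j : Fin k) => (n j : ℝ) ^ a j) (∑ j, 1 / a j)) ∧
    ∀ (k : ℕ) (u : Fin k → ℕ → ℝ) (τ : Fin k → ℝ), (∀ j, Sq (u j) (τ j)) →
      Fam (fun (n : Fin k → ℕ) (j : Fin k) => u j (n j)) (∑ j, τ j) := by
  classical
  refine ⟨fun S k ι v τ θ hv hτ hθ1 => ⟨?_, fun h2 => ?_⟩, fun k E s hk hE hs => ?_, Pool.Agent.N251.LF.examples⟩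
  · have hall : ∀ j : ℕ, ∃ (R : ℕ) (E : Set (Fin k → ℝ)),
        dimH E ≤ ENNReal.ofReal ((k : ℝ) - 1 + (1 / 3 + 1 / ((j : ℝ) + 1) + τ) / (1 - θ)) ∧
        ∀ α, α ∉ E → ∀ c : ℝ, {i | ∃ n : ℕ, (n = 0 ∨ n ∈ Val S R (fun x y z => x * y * z)) ∧
          |(n : ℝ) - ∑ j, α j * v i j| ≤ c * ‖v i‖ ^ θ}.Finite := by
      intro j
      obtain ⟨R, C, hC, h⟩ := AllSolutionsByBases.result.2.2 S (1 / ((j : ℝ) + 1)) (by positivity)
      obtain ⟨E, h3, h4⟩ := linear_win_nat (Val S R (fun x y z => x * y * z)) v (s := 1 / 3 + 1 / ((j : ℝ) + 1))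
        (by positivity) hτ hθ1 hv (fun ε hε => by
          refine ⟨C, fun X hX => ?_⟩
          have hX1 : (1 : ℝ) ≤ X := by exact_mod_cast hX
          obtain ⟨h5, h6⟩ := h X hX1
          have h7 := card_val S R (fun x y z => x * y * z) X (ByProduct S R X) h5 (by
            intro a b c x y z p q r hred hle
            refine ⟨a, b, c, x, y, z, p, q, r, hred.1, rfl, hred.2.1, hred.2.2.2.2.2.2, ?_⟩
            have h8 : ((x.natAbs * y.natAbs * z.natAbs : ℕ) : ℝ) ≤ X := by exact_mod_cast hle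
            rw [← Int.natAbs_mul, ← Int.natAbs_mul, Nat.cast_natAbs, Int.cast_abs] at h8
            exact h8)
          have h9 : (((Ioc 0 X).filter (fun t => t ∈ Val S R (fun x y z => x * y * z))).card : ℝ) ≤
              ((ByProduct S R X).ncard : ℝ) := by exact_mod_cast h7
          refine h9.trans (h6.trans ?_)
          apply mul_le_mul_of_nonneg_left _ hC.le
          apply Real.rpow_le_rpow_of_exponent_le hX1
          linarith)
      exact ⟨R, E, h3, h4⟩
    choose R G hG1 hG2 using hall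
    refine ⟨⋂ m, G m, inter_dim' G hG1, fun α hα => ?_⟩
    rw [Set.mem_iInter] at hα
    push Not at hα
    obtain ⟨j, hj⟩ := hα
    refine ⟨R j, fun c => (hG2 j α hj c).subset ?_⟩
    rintro i ⟨a, b, c', x, y, z, p, q, r, hred, h⟩
    refine ⟨_, Or.inr ⟨a, b, c', x, y, z, p, q, r, hred, ?_⟩, h⟩
    rw [Int.natAbs_mul, Int.natAbs_mul]
  · have hall : ∀ j : ℕ, ∃ (R : ℕ) (E : Set (Fin k → ℝ)),
        dimH E ≤ ENNReal.ofReal ((k : ℝ) - 1 + (0 + 1 / ((j : ℝ) + 1) + τ) / (1 - θ)) ∧
        ∀ α, α ∉ E → ∀ c : ℝ, {i | ∃ n : ℕ, (n = 0 ∨ n ∈ Val S R (fun x y z => max (max x y) z)) ∧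
          |(n : ℝ) - ∑ j, α j * v i j| ≤ c * ‖v i‖ ^ θ}.Finite := by
      intro j
      obtain ⟨R, C, hC, h⟩ := AllSolutionsByBases.result.2.1 S (1 / ((j : ℝ) + 1)) h2 (by positivity)
      obtain ⟨E, h3, h4⟩ := linear_win_nat (Val S R (fun x y z => max (max x y) z)) v
        (s := 0 + 1 / ((j : ℝ) + 1)) (by positivity) hτ hθ1 hv (fun ε hε => by
          refine ⟨C, fun X hX => ?_⟩
          have hX1 : (1 : ℝ) ≤ X := by exact_mod_cast hX
          obtain ⟨h5, h6⟩ := h X hX1
          have h7 := card_val S R (fun x y z => max (max x y) z) X (ByBases S R X) h5 (by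
            intro a b c x y z p q r hred hle
            have hb : ∀ u : ℤ, u.natAbs ≤ X → |(u : ℝ)| ≤ X := by
              intro u hu
              have h8 : ((u.natAbs : ℕ) : ℝ) ≤ X := by exact_mod_cast hu
              rwa [Nat.cast_natAbs, Int.cast_abs] at h8
            have hle' : max (max x.natAbs y.natAbs) z.natAbs ≤ X := hle
            rw [max_le_iff, max_le_iff] at hle'
            exact ⟨a, b, c, x, y, z, p, q, r, hred.1, rfl, hred.2.1, hred.2.2.2.2.2.2,
              hb x hle'.1.1, hb y hle'.1.2, hb z hle'.2⟩)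
          have h9 : (((Ioc 0 X).filter (fun t => t ∈ Val S R (fun x y z => max (max x y) z))).card : ℝ) ≤
              ((ByBases S R X).ncard : ℝ) := by exact_mod_cast h7
          refine h9.trans (h6.trans ?_)
          apply mul_le_mul_of_nonneg_left _ hC.le
          apply Real.rpow_le_rpow_of_exponent_le hX1
          linarith)
      exact ⟨R, E, h3, h4⟩
    choose R G hG1 hG2 using hall
    have hdim := inter_dim' (s := 0) G hG1
    rw [zero_add] at hdim
    refine ⟨⋂ m, G m, hdim, fun α hα => ?_⟩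
    rw [Set.mem_iInter] at hα
    push Not at hα
    obtain ⟨j, hj⟩ := hα
    refine ⟨R j, fun c => (hG2 j α hj c).subset ?_⟩
    rintro i ⟨a, b, c', x, y, z, p, q, r, hred, h⟩
    exact ⟨_, Or.inr ⟨a, b, c', x, y, z, p, q, r, hred, rfl⟩, h⟩
  · exact null_of_dim hE (by rw [Fintype.card_fin]; exact hs) (by rw [Fintype.card_fin]; omega)

end Pool.Agent.Results.MP_be1fae_nt.LinearForms
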