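import Pool.Agent.N733.TG.K
import Pool.Agent.Results.MP_be1fae_nt.WindowsWithoutSolutions

/-!
# No solutions of the generalised Fermat equation near the values of multiplicative functions at almost all members of every
not too sparse set

A solution `a x ^ p + b y ^ q = c z ^ r` with coefficients composed of primes of `S` is called reduced if no prime of `S`
divides `x y z` and `|x|`, `|y|`, `|z|` are `1` or no perfect powers; every solution becomes reduced if the primes of `S`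
in the bases are moved to the coefficients and perfect powers to the exponents (which become larger).

Let `f` be a positive multiplicative function of at most polynomial growth such that `f p ≤ M p` for the large primes `p`,
with different values at different large primes; for example Euler's function or the sum of the divisors. Let `G` have steps
bounded below by a positive constant and growth at most `v^d`, `d ≥ 1`; for example `G v = α v^d`. Let `0 ≤ θ < 1`.
If `2 ∉ S`, there is `R` (depending on `S`, `d`, `θ`) such that for all `B`, `U`, all large `N` and ALL sets `Q` of at least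
`N / (log N)^B` integers between `1` and `N` (for instance the shifted primes `p - 1 ≤ N`, or the sums of two squares), for all
`m` in `Q` but `#Q / (log N)^U` there is NO reduced solution with two exponents `≥ R` and
`|max (|x|, |y|, |z|) - G (f m)| ≤ f(m)^θ`.
If `d / 3 + θ < 1` there is, for every `S`, such an `R` for the windows `||x y z| - G (f m)| ≤ f(m)^θ`. The values of `f` are
in general taken with very large multiplicities, and so this does not follow from the number of the solutions. (The starting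
`TotientOrbits` is about almost all `m`, without a bound for the exceptions, so that it does not apply to sets `Q` of density
zero; the starting `AdditiveValues` is about functions such as the sum of the prime factors, much smaller than `m`.)

Proof. The number of the solutions is bounded by the starting theorem `AllSolutionsByBases` of this problem; the `v` with a
solution near `G v` form a set with a power saving, and the values `f m` avoid such a set for all but few `m`
(tool of helper733, `Pool.Agent.N733.TG`).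
-/

set_option autoImplicit false

open Finset

namespace Pool.Agent.Results.MP_be1fae_nt.MultiplicativeValues

open Pool.Agent.N733.TG (LM Expanding lm_totient lm_sigma expanding_pow keep_win_nat)
open AllSolutionsByBases (Solution TwoLarge ByBases ByProduct Bases)
open WindowsWithoutSolutions (Reduced Val card_val)

/-- from all integers to the members of a set with at least `N / (log N)^B` elements up to `N` -/
theorem to_sets {P : ℕ → Prop} (h : ∀ U : ℕ, ∃ N₀ : ℕ, ∀ N : ℕ, N₀ ≤ N →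
    ({m : ℕ | 1 ≤ m ∧ m ≤ N ∧ P m}.ncard : ℝ) ≤ N / Real.log N ^ U) (B U : ℕ) :
    ∃ N₀ : ℕ, ∀ N : ℕ, N₀ ≤ N → ∀ Q : Finset ℕ, Q ⊆ Icc 1 N → (N : ℝ) / Real.log N ^ B ≤ Q.card →
      ({m : ℕ | m ∈ Q ∧ P m}.ncard : ℝ) ≤ Q.card / Real.log N ^ U := by
  obtain ⟨N₀, hN₀⟩ := h (B + U)
  refine ⟨max N₀ 2, fun N hN Q hQ hc => ?_⟩
  have hN2 : 2 ≤ N := le_trans (le_max_right _ _) hN
  have hlog : 0 < Real.log N := Real.log_pos (by exact_mod_cast hN2)
  have h1 := hN₀ N (le_trans (le_max_left _ _) hN)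
  have hsub : {m : ℕ | m ∈ Q ∧ P m} ⊆ {m : ℕ | 1 ≤ m ∧ m ≤ N ∧ P m} := by
    rintro m ⟨hm, hP⟩
    have := mem_Icc.1 (hQ hm)
    exact ⟨this.1, this.2, hP⟩
  have h2 : ({m : ℕ | m ∈ Q ∧ P m}.ncard : ℝ) ≤ ({m : ℕ | 1 ≤ m ∧ m ≤ N ∧ P m}.ncard : ℝ) := by
    exact_mod_cast Set.ncard_le_ncard hsub ((Set.finite_Icc 1 N).subset fun m hm => ⟨hm.1, hm.2.1⟩)
  calc ({m : ℕ | m ∈ Q ∧ P m}.ncard : ℝ) ≤ N / Real.log N ^ (B + U) := h2.trans h1
    _ = N / Real.log N ^ B / Real.log N ^ U := by rw [pow_add, div_div]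
    _ ≤ Q.card / Real.log N ^ U := by gcongr

/-- the statement for all integers -/
theorem basic :
    (∀ (S : Finset ℕ) (d θ : ℝ), 1 ≤ d → 0 ≤ θ →
      (2 ∉ S → θ < 1 → ∃ R : ℕ, ∀ G : ℕ → ℝ, Expanding G d → ∀ f : ℕ → ℕ, LM f → ∀ U : ℕ, ∃ N₀ : ℕ, ∀ N : ℕ, N₀ ≤ N →
        ({m : ℕ | 1 ≤ m ∧ m ≤ N ∧ ∃ (a b c x y z : ℤ) (p q r : ℕ), Reduced S R a b c x y z p q r ∧
          |((max (max x.natAbs y.natAbs) z.natAbs : ℕ) : ℝ) - G (f m)| ≤ (f m : ℝ) ^ θ}.ncard : ℝ) ≤
            N / Real.log N ^ U) ∧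
      (d / 3 + θ < 1 → ∃ R : ℕ, ∀ G : ℕ → ℝ, Expanding G d → ∀ f : ℕ → ℕ, LM f → ∀ U : ℕ, ∃ N₀ : ℕ, ∀ N : ℕ, N₀ ≤ N →
        ({m : ℕ | 1 ≤ m ∧ m ≤ N ∧ ∃ (a b c x y z : ℤ) (p q r : ℕ), Reduced S R a b c x y z p q r ∧
          |(((x * y * z).natAbs : ℕ) : ℝ) - G (f m)| ≤ (f m : ℝ) ^ θ}.ncard : ℝ) ≤
            N / Real.log N ^ U)) ∧
    (LM Nat.totient ∧ LM (fun m => ∑ d ∈ m.divisors, d)) ∧
    ∀ α d : ℝ, 0 < α → 1 ≤ d → Expanding (fun v => α * (v : ℝ) ^ d) d := by
  classical
  refine ⟨fun S d θ hd hθ => ⟨fun h2 hθ1 => ?_, fun h1 => ?_⟩, ⟨lm_totient, lm_sigma⟩,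
    fun α d hα hd => expanding_pow hα hd⟩
  · have hδ0 : 0 < (1 - θ) / (2 * d) := div_pos (by linarith) (by linarith)
    have hδd : d * ((1 - θ) / (2 * d)) = (1 - θ) / 2 := by field_simp
    obtain ⟨R, C, hC, h⟩ := AllSolutionsByBases.result.2.1 S ((1 - θ) / (2 * d)) h2 hδ0
    refine ⟨R, fun G hG f hf U => ?_⟩
    obtain ⟨N₀, hN₀⟩ := keep_win_nat (Val S R (fun x y z => max (max x y) z)) hf hG
      (s := (1 - θ) / (2 * d)) (κ := θ) hδ0.le hθ (by rw [hδd]; linarith) (fun ε hε => by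
        refine ⟨C, fun X hX => ?_⟩
        have hX1 : (1 : ℝ) ≤ X := by exact_mod_cast hX
        obtain ⟨h5, h6⟩ := h X hX1
        have h7 := card_val S R (fun x y z => max (max x y) z) X (ByBases S R X) h5 (by
          intro a b c x y z p q r hred hle
          have hb : ∀ u : ℤ, u.natAbs ≤ X → |(u : ℝ)| ≤ X := by
            intro u hu
            have h8 : ((u.natAbs : ℕ) : ℝ) ≤ X := by exact_mod_cast hu
            rwa [Nat.cast_natAbs, Int.cast_abs] at h8
          have hle' : max (max x.natAbs y.natAbs) z.natAbs ≤ X := hle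
          rw [max_le_iff, max_le_iff] at hle'
          exact ⟨a, b, c, x, y, z, p, q, r, hred.1, rfl, hred.2.1, hred.2.2.2.2.2.2,
            hb x hle'.1.1, hb y hle'.1.2, hb z hle'.2⟩)
        have h9 : (((Ioc 0 X).filter (fun t => t ∈ Val S R (fun x y z => max (max x y) z))).card : ℝ) ≤
            ((ByBases S R X).ncard : ℝ) := by exact_mod_cast h7
        refine h9.trans (h6.trans ?_)
        apply mul_le_mul_of_nonneg_left _ hC.le
        apply Real.rpow_le_rpow_of_exponent_le hX1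
        linarith) U
    refine ⟨N₀, fun N hN => le_trans ?_ (hN₀ N hN)⟩
    have hsub : {m : ℕ | 1 ≤ m ∧ m ≤ N ∧ ∃ (a b c x y z : ℤ) (p q r : ℕ), Reduced S R a b c x y z p q r ∧
          |((max (max x.natAbs y.natAbs) z.natAbs : ℕ) : ℝ) - G (f m)| ≤ (f m : ℝ) ^ θ} ⊆
        {m : ℕ | 1 ≤ m ∧ m ≤ N ∧ ∃ n : ℕ, (n = 0 ∨ n ∈ Val S R (fun x y z => max (max x y) z)) ∧
          |(n : ℝ) - G (f m)| ≤ (f m : ℝ) ^ θ} := by
      rintro m ⟨e1, e2, a, b, c, x, y, z, p, q, r, hred, e3⟩
      exact ⟨e1, e2, _, Or.inr ⟨a, b, c, x, y, z, p, q, r, hred, rfl⟩, e3⟩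
    exact_mod_cast Set.ncard_le_ncard hsub ((Set.finite_Icc 1 N).subset fun m hm => ⟨hm.1, hm.2.1⟩)
  · have hδ0 : 0 < (1 - θ - d / 3) / (2 * d) := div_pos (by linarith) (by linarith)
    have hδd : d * ((1 - θ - d / 3) / (2 * d)) = (1 - θ - d / 3) / 2 := by field_simp
    obtain ⟨R, C, hC, h⟩ := AllSolutionsByBases.result.2.2 S ((1 - θ - d / 3) / (2 * d)) hδ0
    refine ⟨R, fun G hG f hf U => ?_⟩
    obtain ⟨N₀, hN₀⟩ := keep_win_nat (Val S R (fun x y z => x * y * z)) hf hG
      (s := 1 / 3 + (1 - θ - d / 3) / (2 * d)) (κ := θ) (by linarith) hθ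
      (by rw [mul_add, hδd]; linarith) (fun ε hε => by
        refine ⟨C, fun X hX => ?_⟩
        have hX1 : (1 : ℝ) ≤ X := by exact_mod_cast hX
        obtain ⟨h5, h6⟩ := h X hX1
        have h7 := card_val S R (fun x y z => x * y * z) X (ByProduct S R X) h5 (by
          intro a b c x y z p q r hred hle
          refine ⟨a, b, c, x, y, z, p, q, r, hred.1, rfl, hred.2.1, hred.2.2.2.2.2.2, ?_⟩
          have h8 : ((x.natAbs * y.natAbs * z.natAbs : ℕ) : ℝ) ≤ X := by exact_mod_cast hle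
          rw [← Int.natAbs_mul, ← Int.natAbs_mul, Nat.cast_natAbs, Int.cast_abs] at h8
          exact h8)
        have h9 : (((Ioc 0 X).filter (fun t => t ∈ Val S R (fun x y z => x * y * z))).card : ℝ) ≤
            ((ByProduct S R X).ncard : ℝ) := by exact_mod_cast h7
        refine h9.trans (h6.trans ?_)
        apply mul_le_mul_of_nonneg_left _ hC.le
        apply Real.rpow_le_rpow_of_exponent_le hX1
        linarith) U
    refine ⟨N₀, fun N hN => le_trans ?_ (hN₀ N hN)⟩
    have hsub : {m : ℕ | 1 ≤ m ∧ m ≤ N ∧ ∃ (a b c x y z : ℤ) (p q r : ℕ), Reduced S R a b c x y z p q r ∧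
          |(((x * y * z).natAbs : ℕ) : ℝ) - G (f m)| ≤ (f m : ℝ) ^ θ} ⊆
        {m : ℕ | 1 ≤ m ∧ m ≤ N ∧ ∃ n : ℕ, (n = 0 ∨ n ∈ Val S R (fun x y z => x * y * z)) ∧
          |(n : ℝ) - G (f m)| ≤ (f m : ℝ) ^ θ} := by
      rintro m ⟨e1, e2, a, b, c, x, y, z, p, q, r, hred, e3⟩
      refine ⟨e1, e2, _, Or.inr ⟨a, b, c, x, y, z, p, q, r, hred, ?_⟩, e3⟩
      rw [Int.natAbs_mul, Int.natAbs_mul]
    exact_mod_cast Set.ncard_le_ncard hsub ((Set.finite_Icc 1 N).subset fun m hm => ⟨hm.1, hm.2.1⟩)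

/-- **No solutions near the values of multiplicative functions at almost all members of every not too sparse set.** Let `f` be
multiplicative and positive, of at most polynomial growth, with `f p ≤ M p` at the large primes, and injective there. Let `G`
have steps `≥ a > 0` and growth at most `v^d`. Let `S` be a finite set and `0 ≤ θ < 1`.
(1) If `2 ∉ S` there is `R`, depending only on `S`, `d` and `θ`, such that for all `B`, `U`, all large `N` and all sets `Q` of
at least `N / (log N)^B` integers between `1` and `N`, for all `m` in `Q` but `#Q / (log N)^U`, there is no reduced `S`-solution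
`a x ^ p + b y ^ q = c z ^ r` with at least two exponents `≥ R` and `|max (|x|, |y|, |z|) - G (f m)| ≤ f(m)^θ`.
(2) If `d / 3 + θ < 1` there is such an `R` for every `S` and the windows `||x y z| - G (f m)| ≤ f(m)^θ`.
Euler's function and the sum of the divisors are examples of such functions `f`, and `α v^d` with `α > 0`, `d ≥ 1` is an
example of `G`. -/
theorem result :
    (∀ (S : Finset ℕ) (d θ : ℝ), 1 ≤ d → 0 ≤ θ →
      (2 ∉ S → θ < 1 → ∃ R : ℕ, ∀ G : ℕ → ℝ, Expanding G d → ∀ f : ℕ → ℕ, LM f → ∀ B U : ℕ, ∃ N₀ : ℕ, ∀ N : ℕ, N₀ ≤ N →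
        ∀ Q : Finset ℕ, Q ⊆ Icc 1 N → (N : ℝ) / Real.log N ^ B ≤ Q.card →
        ({m : ℕ | m ∈ Q ∧ ∃ (a b c x y z : ℤ) (p q r : ℕ), Reduced S R a b c x y z p q r ∧
          |((max (max x.natAbs y.natAbs) z.natAbs : ℕ) : ℝ) - G (f m)| ≤ (f m : ℝ) ^ θ}.ncard : ℝ) ≤
            Q.card / Real.log N ^ U) ∧
      (d / 3 + θ < 1 → ∃ R : ℕ, ∀ G : ℕ → ℝ, Expanding G d → ∀ f : ℕ → ℕ, LM f → ∀ B U : ℕ, ∃ N₀ : ℕ, ∀ N : ℕ, N₀ ≤ N →
        ∀ Q : Finset ℕ, Q ⊆ Icc 1 N → (N : ℝ) / Real.log N ^ B ≤ Q.card →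
        ({m : ℕ | m ∈ Q ∧ ∃ (a b c x y z : ℤ) (p q r : ℕ), Reduced S R a b c x y z p q r ∧
          |(((x * y * z).natAbs : ℕ) : ℝ) - G (f m)| ≤ (f m : ℝ) ^ θ}.ncard : ℝ) ≤
            Q.card / Real.log N ^ U)) ∧
    (LM Nat.totient ∧ LM (fun m => ∑ d ∈ m.divisors, d)) ∧
    ∀ α d : ℝ, 0 < α → 1 ≤ d → Expanding (fun v => α * (v : ℝ) ^ d) d := by
  refine ⟨fun S d θ hd hθ => ⟨fun h2 hθ1 => ?_, fun h1 => ?_⟩, basic.2.1, basic.2.2⟩
  · obtain ⟨R, hR⟩ := (basic.1 S d θ hd hθ).1 h2 hθ1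
    exact ⟨R, fun G hG f hf B U => to_sets (hR G hG f hf) B U⟩
  · obtain ⟨R, hR⟩ := (basic.1 S d θ hd hθ).2 h1
    exact ⟨R, fun G hG f hf B U => to_sets (hR G hG f hf) B U⟩

end Pool.Agent.Results.MP_be1fae_nt.MultiplicativeValues
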