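import Mathlib
import Pool.Agent.K6.H50.SGF.Sol2

/-!
# Generalised Fermat equations with bases close to powers of a prime `ℓ`: all exponents

Let `L ≥ 1` and `s` be integers, `K = (200 L) ^ (3 s + 2)`, `ℓ` a prime number, `N ≥ 1` and
`V = ℓ ^ (N / K)`. We consider solutions of `a x ^ p + b y ^ q = c z ^ r` with arbitrary exponents
`p`, `q`, `r` with `1 / p + 1 / q + 1 / r < 1` and `gcd (a x, b y, c z) = 1`, each of whose bases is
a power of `ℓ` times the sum of `1` or `-1` and of at most `s` terms `u ℓ ^ i` with `N ≤ i ≤ L N`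
and `∑ |u| ≤ V`, and each of whose coefficients is a power of `ℓ` times an integer of absolute
value at most `V` (for example `{ℓ}`-solutions, or fixed coefficients). If `ℓ a b c` is odd,
there are no such solutions for large `N` (in terms of `s` and `L`, but not of `ℓ`), and only
finitely many for given `ℓ`. The same holds if `ℓ a b c` is even for solutions such that `x y z`
has a small prime factor different from `ℓ`.

Idea of the proof: if the exponents are at most `V`, then the bases are `±` powers of `ℓ`: all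
exponents of `ℓ` are approximated by multiples of `N / Q`, where `Q` depends on `s` and `L`
only, so the bases are lifted to polynomials in `X`; the equation holds modulo a high power of
`X`, hence exactly, as its terms satisfy linear differential equations of the first order and
small degree; now apply the theorem of Mason and Stothers. If `ℓ a b c` is odd, one of the three
terms is even, and bounds for linear forms in logarithms (`2`-adic, `ℓ`-adic and archimedean) show
that all exponents are at most a power of the logarithm of the largest base; so they are smaller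
than `V` if `N` is large.
-/

set_option autoImplicit false

namespace Pool.Agent.Results.MP_be1fae_nt.NearUnitAllExponents

open Pool.Agent.K6.H50.SGF

/-- **Main theorem.** Let `L ≥ 1`, `s ≥ 0` and `K = (200 L) ^ (3 s + 2)`. For a prime `ℓ` and
`N ≥ 1` let `V = ℓ ^ (N / K)`, and consider the solutions of `a x ^ p + b y ^ q = c z ^ r` as in
the problem, with arbitrary exponents, such that each of `x`, `y`, `z` is a power of `ℓ` times the
sum of `1` or `-1` and of at most `s` terms `u ℓ ^ i` with `N ≤ i ≤ L N` and `∑ |u| ≤ V`.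

(1) For every `B` there is `N₀` such that for all `ℓ`, all `N ≥ N₀` and all such solutions with
coefficients which are powers of `ℓ` times integers of absolute value at most `V`: `ℓ a b c` is
even, and all prime numbers `π ≠ ℓ` which divide `x y z` are larger than `(ℓ N) ^ B`. In
particular there are no such solutions if `ℓ a b c` is odd.

(2) For all `B`, `C` and `ℓ`, the triples of terms `(a x ^ p, b y ^ q, c z ^ r)` of all such
solutions, for all `N ≥ 1`, with coefficients which are powers of `ℓ` times integers of absolute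
value at most `max (C, V)` and with `ℓ a b c` odd, form a finite set. So do those with `ℓ a b c`
even for which `x y z` has a prime factor `π ≠ ℓ` with `π ≤ (ℓ N) ^ B`. -/
theorem result (s L : ℕ) (hL : 1 ≤ L) (B : ℕ) :
    (∃ N₀ : ℕ, ∀ (ℓ N : ℕ), ℓ.Prime → N₀ ≤ N → ∀ V : ℝ,
      V = (ℓ : ℝ) ^ ((N : ℝ) / (200 * L) ^ (3 * s + 2)) →
      ∀ (a b c x y z : ℤ) (p q r : ℕ), Sol a b c x y z p q r →
      Coef ℓ V a → Coef ℓ V b → Coef ℓ V c →
      NearPower ℓ N L s V x → NearPower ℓ N L s V y → NearPower ℓ N L s V z →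
      (2 : ℤ) ∣ ℓ * (a * b * c) ∧
        ∀ π : ℕ, π.Prime → π ≠ ℓ → (π : ℤ) ∣ x * y * z → (ℓ * N) ^ B < π) ∧
    (∀ (C : ℝ) (ℓ : ℕ), ℓ.Prime →
      {T : ℤ × ℤ × ℤ | ∃ (a b c x y z : ℤ) (p q r : ℕ), Sol a b c x y z p q r ∧
        T = (a * x ^ p, b * y ^ q, c * z ^ r) ∧ ∃ N : ℕ, 1 ≤ N ∧ ∃ V : ℝ,
          V = (ℓ : ℝ) ^ ((N : ℝ) / (200 * L) ^ (3 * s + 2)) ∧
          Coef ℓ (max C V) a ∧ Coef ℓ (max C V) b ∧ Coef ℓ (max C V) c ∧
          NearPower ℓ N L s V x ∧ NearPower ℓ N L s V y ∧ NearPower ℓ N L s V z ∧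
          (¬ (2 : ℤ) ∣ ℓ * (a * b * c) ∨
            ∃ π : ℕ, π.Prime ∧ π ≠ ℓ ∧ π ≤ (ℓ * N) ^ B ∧ (π : ℤ) ∣ x * y * z)}.Finite) := by
  have odd' : ∀ (ℓ : ℕ) (m : ℤ), ¬ (2 : ℤ) ∣ ℓ * m → 2 ≠ ℓ ∧ ¬ (2 : ℤ) ∣ m := by
    intro ℓ m h
    refine ⟨fun h0 => h ?_, fun h0 => h (Dvd.dvd.mul_left h0 _)⟩
    rw [← h0]
    exact Dvd.intro _ rfl
  refine ⟨?_, ?_⟩
  · obtain ⟨N₀, hN₀⟩ := none_large s L (B + 1) hL
    refine ⟨max 1 N₀, ?_⟩
    intro ℓ N hℓ hN V hV a b c x y z p q r h ka kb kc hx hy hz
    refine ⟨?_, fun π hπ hπℓ hd => ?_⟩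
    · by_contra hne
      obtain ⟨h1, h2⟩ := odd' ℓ _ hne
      exact hN₀ ℓ N hℓ (by omega) V hV a b c x y z p q r h ka kb kc hx hy hz 2 Nat.prime_two h1
        (two_le_pow hℓ.two_le B) (two_dvd h2 h)
    · by_contra hcon
      rw [not_lt] at hcon
      exact hN₀ ℓ N hℓ (by omega) V hV a b c x y z p q r h ka kb kc hx hy hz π hπ hπℓ
        (hcon.trans (le_pow_succ hℓ.one_lt.le (by omega) B)) hd
  · intro C ℓ hℓ
    refine Set.Finite.subset (finite_all s L (B + 1) hL C ℓ hℓ) ?_
    rintro T ⟨a, b, c, x, y, z, p, q, r, h, rfl, N, hN, V, hV, ka, kb, kc, hx, hy, hz, hor⟩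
    refine ⟨a, b, c, x, y, z, p, q, r, h, rfl, N, hN, V, hV, ka, kb, kc, hx, hy, hz, ?_⟩
    rcases hor with hne | ⟨π, hπ, hπℓ, hπB, hd⟩
    · obtain ⟨h1, h2⟩ := odd' ℓ _ hne
      exact ⟨2, Nat.prime_two, h1, two_le_pow hℓ.two_le B, two_dvd h2 h⟩
    · exact ⟨π, hπ, hπℓ, hπB.trans (le_pow_succ hℓ.one_lt.le hN B), hd⟩

end Pool.Agent.Results.MP_be1fae_nt.NearUnitAllExponents
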