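import Mathlib
import Pool.Agent.K6.H50.SGF.Sol

/-!
# Generalised Fermat equations in numbers close to `±1` in base `g`: large exponents

Let `g ≥ 2`, `N ≥ 1`, `L ≥ 1` and `s` be integers, `K = (200 L) ^ (3 s + 2)` and `V = g ^ (N / K)`.
We consider the equation `A x ^ p + B y ^ q + D g ^ k z ^ r = 0` with `1 / p + 1 / q + 1 / r ≤ 1`,
`gcd (x, y) = 1`, any `k ≥ 0`, and coefficients `A`, `B`, `D` of absolute value at most `V`, where
`x` is the sum of `x₀` and of at most `s` terms `u g ^ i` with exponents `i` in `[N, L N]`, the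
numbers `|u|` having a sum of at most `V`, and similarly for `y` and `z`. All exponents `p`, `q`,
`r` up to `V` are allowed; `|x₀| ^ p`, `|y₀| ^ q` and `|z₀| ^ r` are at most `V` (for example
`x₀ = ± 1`). Then there is only the trivial solution, `x = x₀`, `y = y₀` and `z = z₀`.

For a prime number `g = ℓ` and `x₀`, `y₀`, `z₀` equal to `± 1` we get the equation
`a x ^ p + b y ^ q = c z ^ r`, where `a`, `b`, `c` are powers of `ℓ` times integers of absolute
value at most `V` (for example all `{ℓ}`-solutions), with exponents up to a power of the bases.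

Idea of the proof: all exponents of `g` are approximated by multiples of `N / Q`, where `Q` depends
on `s` and `L` only (Dirichlet). So `x`, `y`, `z` are lifted to polynomials in `X`, and
`g ^ k` to a multiple of a power of `X`. The powers with the exponents `p`, `q`, `r` are expanded
with the binomial theorem. As everything is small compared to `g ^ (N / Q)`, the equation modulo
`g ^ (m N)` becomes an equation modulo `X ^ (m Q)`, for `m = 9 L + 1`. The three terms satisfy
linear differential equations of the first order with polynomial coefficients of degree at most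
`3 L Q`, whatever the exponents `p`, `q`, `r` are; hence the equation holds exactly. The
polynomials are coprime (their zeros are small, and the values `x` and `y` at `1` are coprime), so
they are constant by the theorem of Mason and Stothers.
-/

set_option autoImplicit false

namespace Pool.Agent.Results.MP_be1fae_nt.NearUnitBases

open Pool.Agent.K6.H50.SGF

/-- **Main theorem.** Let `L ≥ 1`, `s ≥ 0` and `K = (200 L) ^ (3 s + 2)`.

(1) For all `g ≥ 2` and `N ≥ 1` put `V = g ^ (N / K)`. Let `A`, `B`, `D` be nonzero integers of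
absolute value at most `V`, `p`, `q`, `r` positive integers of size at most `V` with
`1 / p + 1 / q + 1 / r ≤ 1`, `k ≥ 0`, and `x`, `y`, `z` integers with `gcd (x, y) = 1`, each of which
is the sum of a nonzero integer `x₀` (`y₀`, `z₀`) with `|x₀| ^ p ≤ V` (`|y₀| ^ q ≤ V`,
`|z₀| ^ r ≤ V`) and of at most `s` terms `u g ^ i` with `N ≤ i ≤ L N`, the numbers `|u|` having a
sum of at most `V`. If `A x ^ p + B y ^ q + D g ^ k z ^ r = 0`, then `x = x₀`, `y = y₀`, `z = z₀`.

(2) The case of `S`-solutions. For every prime number `ℓ` and `N ≥ 1` put `V = ℓ ^ (N / K)`.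
Let `a x ^ p + b y ^ q = c z ^ r` be a solution as in the problem, with coefficients which are
powers of `ℓ` times integers of absolute value at most `V` (no condition for `{ℓ}`-solutions). If
its bases `x`, `y`, `z` are powers of `ℓ` times sums of `1` or `-1` and at most `s` terms `u ℓ ^ i`
as above, but not all equal to `±` powers of `ℓ`, then it has an exponent larger than `V`. -/
theorem result (s L : ℕ) (hL : 1 ≤ L) :
    (∀ (g N : ℕ), 2 ≤ g → 1 ≤ N → ∀ V : ℝ, V = (g : ℝ) ^ ((N : ℝ) / (200 * L) ^ (3 * s + 2)) →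
      ∀ (A B D x y z x₀ y₀ z₀ : ℤ) (p q r k : ℕ), 0 < p → 0 < q → 0 < r →
      (1 : ℚ) / p + 1 / q + 1 / r ≤ 1 → (p : ℝ) ≤ V → (q : ℝ) ≤ V → (r : ℝ) ≤ V →
      A ≠ 0 → B ≠ 0 → D ≠ 0 → |(A : ℝ)| ≤ V → |(B : ℝ)| ≤ V → |(D : ℝ)| ≤ V →
      x₀ ≠ 0 → y₀ ≠ 0 → z₀ ≠ 0 → |(x₀ : ℝ)| ^ p ≤ V → |(y₀ : ℝ)| ^ q ≤ V →
      |(z₀ : ℝ)| ^ r ≤ V → Near g N L s V x₀ x → Near g N L s V y₀ y → Near g N L s V z₀ z →
      IsCoprime x y → A * x ^ p + B * y ^ q + D * (g : ℤ) ^ k * z ^ r = 0 →
      x = x₀ ∧ y = y₀ ∧ z = z₀) ∧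
    (∀ (ℓ N : ℕ), ℓ.Prime → 1 ≤ N → ∀ V : ℝ,
      V = (ℓ : ℝ) ^ ((N : ℝ) / (200 * L) ^ (3 * s + 2)) →
      ∀ (a b c x y z : ℤ) (p q r : ℕ), Sol a b c x y z p q r →
      Coef ℓ V a → Coef ℓ V b → Coef ℓ V c → NearPower ℓ N L s V x →
      NearPower ℓ N L s V y → NearPower ℓ N L s V z →
      ¬ (IsPower ℓ x ∧ IsPower ℓ y ∧ IsPower ℓ z) → V < max p (max q r)) := by
  refine ⟨?_, ?_⟩
  · intro g N hg hN V hV A B D x y z x₀ y₀ z₀ p q r k hp hq hr hyp hpV hqV hrV hA hB hD hAV hBV
      hDV hx0 hy0 hz0 hxV hyV hzV hx hy hz hcop heq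
    exact general s L hL g N hg hN A B D x y z x₀ y₀ z₀ p q r k V hV hp hq hr hyp hpV hqV hrV
      hA hB hD hAV hBV hDV hx0 hy0 hz0 hxV hyV hzV hx hy hz hcop heq
  · intro ℓ N hℓ hN V hV a b c x y z p q r h ka kb kc hx hy hz hnot
    by_contra hcon
    rw [not_lt] at hcon
    have h1 : (p : ℝ) ≤ V := le_trans (by exact_mod_cast le_max_left p (max q r)) hcon
    have h2 : (q : ℝ) ≤ V :=
      le_trans (by exact_mod_cast (le_max_left q r).trans (le_max_right p (max q r))) hcon
    have h3 : (r : ℝ) ≤ V :=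
      le_trans (by exact_mod_cast (le_max_right q r).trans (le_max_right p (max q r))) hcon
    exact hnot (solutions s L hL ℓ N hℓ hN V hV a b c x y z p q r h ka kb kc hx hy hz h1 h2 h3)

end Pool.Agent.Results.MP_be1fae_nt.NearUnitBases
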